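import Pool.Agent.P8H40.SE.EllD

/-!
# One point of a translate
-/

set_option autoImplicit false

open Polynomial Filter Module
open scoped PeriodPair

namespace Pool.Agent.P8H40.TR

open Pool.Agent.Y124.TD Pool.Agent.Y124.TG Pool.Agent.P8H40.SE

lemma JE_zero (F₀ F₁ : ℝ → ℂ) {A : ℚ} (hA : A ≠ 0) (B : ℚ) (t : ℝ) : F₀ (A * t + B) = A * JE F₀ F₁ A B 0 t := by
  have hA' : (A : ℂ) ≠ 0 := by exact_mod_cast hA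
  unfold JE
  rw [if_pos rfl, ← mul_assoc, mul_inv_cancel₀ hA', one_mul]

lemma JE_one (F₀ F₁ : ℝ → ℂ) {A : ℚ} (hA : A ≠ 0) (B : ℚ) (t : ℝ) :
    F₁ (A * t + B) = A ^ 2 * JE F₀ F₁ A B 1 t + B * A * JE F₀ F₁ A B 0 t := by
  have hA' : (A : ℂ) ≠ 0 := by exact_mod_cast hA
  unfold JE
  rw [if_pos rfl, if_neg one_ne_zero]
  field_simp
  ring

lemma pt (Λ : PeriodPair) {F₀ F₁ : ℝ → ℂ} {A B : ℚ} (hA : A ≠ 0) {x : ℝ}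
    (hx : ∀ z : ℂ, z ∉ Λ.lattice → ℘[Λ] z = (((A : ℝ) * x + B : ℝ) : ℂ) →
      ∃ ε n₁ n₂ : ℤ, (ε = 1 ∨ ε = -1) ∧ z = -ε * F₀ ((A : ℝ) * x + B) + n₁ * Λ.ω₁ + n₂ * Λ.ω₂ ∧
        zeta Λ z = ε * F₁ ((A : ℝ) * x + B) + n₁ * (2 * zeta Λ (Λ.ω₁ / 2)) + n₂ * (2 * zeta Λ (Λ.ω₂ / 2)))
    {z p : ℂ} (hp : p ∉ Λ.lattice) (hpz : p - z ∉ Λ.lattice)
    (hval : ℘[Λ] (p - z) = (((A : ℝ) * x + B : ℝ) : ℂ)) (hex : ℘[Λ] z ≠ (((A : ℝ) * x + B : ℝ) : ℂ)) :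
    ∃ α₀ α₁ β₀ β₁ β₂ dd : ℂ, α₁ ≠ 0 ∧ β₂ ≠ 0 ∧ dd ≠ 0 ∧ p = α₀ + α₁ * JE F₀ F₁ A B 0 x ∧
      dd * zeta Λ p = β₀ + β₁ * JE F₀ F₁ A B 0 x + β₂ * JE F₀ F₁ A B 1 x ∧
      ∀ (K : IntermediateField ℚ ℂ) (V : Submodule K ℂ), (1 : ℂ) ∈ V → (((A : ℝ) * x + B : ℝ) : ℂ) ∈ V → z ∈ V → zeta Λ z ∈ V →
        ℘[Λ] z ∈ V → ℘'[Λ] z ∈ V → ℘'[Λ] (p - z) ∈ V → Λ.ω₁ ∈ V → Λ.ω₂ ∈ V → 2 * zeta Λ (Λ.ω₁ / 2) ∈ V →
        2 * zeta Λ (Λ.ω₂ / 2) ∈ V → α₀ ∈ V ^ 2 ∧ α₁ ∈ V ^ 2 ∧ β₀ ∈ V ^ 2 ∧ β₁ ∈ V ^ 2 ∧ β₂ ∈ V ^ 2 ∧ dd ∈ V ^ 2 := by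
  have hA' : (A : ℂ) ≠ 0 := by exact_mod_cast hA
  have hup : ∀ {K : IntermediateField ℚ ℂ} {V : Submodule K ℂ} (_ : (1 : ℂ) ∈ V) {y : ℂ}, y ∈ V → y ∈ V ^ 2 :=
    fun h1V _ hy => pow_mem_mono h1V (by norm_num : 1 ≤ 2) (by rw [pow_one]; exact hy)
  have hmul : ∀ {K : IntermediateField ℚ ℂ} {V : Submodule K ℂ} {y y' : ℂ}, y ∈ V → y' ∈ V → y * y' ∈ V ^ 2 :=
    fun {K V y y'} hy hy' => by
      have := pow_mem_add (W := V) (a := 1) (b := 1) (by rw [pow_one]; exact hy) (by rw [pow_one]; exact hy')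
      exact this
  have hrat : ∀ {K : IntermediateField ℚ ℂ} {V : Submodule K ℂ} (_ : (1 : ℂ) ∈ V) (q : ℚ), (q : ℂ) ∈ V := fun h1V q => by
    have := Pool.Agent.Y124.TG.mQ q h1V
    rwa [mul_one] at this
  by_cases hz : z ∈ Λ.lattice
  · have e0 : ℘[Λ] p = (((A : ℝ) * x + B : ℝ) : ℂ) := by
      rw [← hval]
      have := Λ.weierstrassP_add_coe (p - z) ⟨z, hz⟩
      rw [← this]
      congr 1
      show p = p - z + z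
      ring
    obtain ⟨ε, n₁, n₂, hε, e1, e2⟩ := hx p hp e0
    have hε0 : (ε : ℂ) ≠ 0 := by rcases hε with rfl | rfl <;> norm_num
    refine ⟨n₁ * Λ.ω₁ + n₂ * Λ.ω₂, -ε * A, n₁ * (2 * zeta Λ (Λ.ω₁ / 2)) + n₂ * (2 * zeta Λ (Λ.ω₂ / 2)), ε * (B * A), ε * A ^ 2, 1,
      mul_ne_zero (neg_ne_zero.2 hε0) hA', mul_ne_zero hε0 (pow_ne_zero _ hA'), one_ne_zero, ?_, ?_, ?_⟩
    · rw [e1, JE_zero F₀ F₁ hA]
      ring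
    · rw [one_mul, e2, JE_one F₀ F₁ hA]
      ring
    · intro K V h1V _ _ _ _ _ _ w1 w2 w3 w4
      refine ⟨hup h1V (Submodule.add_mem _ (zmul_mem _ w1) (zmul_mem _ w2)), hup h1V ?_,
        hup h1V (Submodule.add_mem _ (zmul_mem _ w3) (zmul_mem _ w4)), hup h1V ?_, hup h1V ?_, hup h1V h1V⟩
      · have : -(ε : ℂ) * A = ((-ε * A : ℚ) : ℂ) := by push_cast; ring
        rw [this]
        exact hrat h1V _
      · have : (ε : ℂ) * (B * A) = ((ε * (B * A) : ℚ) : ℂ) := by push_cast; ring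
        rw [this]
        exact hrat h1V _
      · have : (ε : ℂ) * A ^ 2 = ((ε * A ^ 2 : ℚ) : ℂ) := by push_cast; ring
        rw [this]
        exact hrat h1V _
  · obtain ⟨ε, n₁, n₂, hε, e1, e2⟩ := hx (p - z) hpz hval
    have hε0 : (ε : ℂ) ≠ 0 := by rcases hε with rfl | rfl <;> norm_num
    set u := p - z with hu
    have hne : ℘[Λ] z - ℘[Λ] u ≠ 0 := by
      rw [hval]
      exact sub_ne_zero.2 hex
    have hzu : z + u = p := by rw [hu]; ring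
    have hzu' : z - u ∉ Λ.lattice := fun h => hne (by
      rw [(H667R3.wp_eq_iff Λ hz hpz).2 (Or.inr h), sub_self])
    have hadd : zeta Λ p = zeta Λ z + zeta Λ u + (℘'[Λ] z - ℘'[Λ] u) / (2 * (℘[Λ] z - ℘[Λ] u)) := by
      have h5 := H667R3.zeta_add Λ hz hpz (by rw [hzu]; exact hp) hzu'
      rw [hzu] at h5
      exact h5
    refine ⟨z + (n₁ * Λ.ω₁ + n₂ * Λ.ω₂), -ε * A,
      (℘[Λ] z - ℘[Λ] u) * (zeta Λ z + (n₁ * (2 * zeta Λ (Λ.ω₁ / 2)) + n₂ * (2 * zeta Λ (Λ.ω₂ / 2)))) +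
        ((1 / 2 : ℚ) : ℂ) * (℘'[Λ] z - ℘'[Λ] u),
      (℘[Λ] z - ℘[Λ] u) * ((ε * (B * A) : ℚ) : ℂ), (℘[Λ] z - ℘[Λ] u) * ((ε * A ^ 2 : ℚ) : ℂ), ℘[Λ] z - ℘[Λ] u,
      mul_ne_zero (neg_ne_zero.2 hε0) hA', mul_ne_zero hne ?_, hne, ?_, ?_, ?_⟩
    · push_cast
      exact mul_ne_zero hε0 (pow_ne_zero _ hA')
    · rw [JE_zero F₀ F₁ hA] at e1
      linear_combination e1 - hzu
    · rw [hadd, e2, JE_one F₀ F₁ hA]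
      push_cast
      field_simp
      ring
    · intro K V h1V hr v3 v4 v5 v6 v7 w1 w2 w3 w4
      have hγV : ℘[Λ] z - ℘[Λ] u ∈ V := by
        rw [hval]
        exact Submodule.sub_mem _ v5 hr
      refine ⟨hup h1V (Submodule.add_mem _ v3 (Submodule.add_mem _ (zmul_mem _ w1) (zmul_mem _ w2))), hup h1V ?_, ?_,
        hmul hγV (hrat h1V _), hmul hγV (hrat h1V _), hup h1V hγV⟩
      · have : -(ε : ℂ) * A = ((-ε * A : ℚ) : ℂ) := by push_cast; ring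
        rw [this]
        exact hrat h1V _
      · exact Submodule.add_mem _ (hmul hγV (Submodule.add_mem _ v4 (Submodule.add_mem _ (zmul_mem _ w3) (zmul_mem _ w4))))
          (hup h1V (Pool.Agent.Y124.TG.mQ _ (Submodule.sub_mem _ v6 v7)))

end Pool.Agent.P8H40.TR
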