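import Pool.Agent.P8H40.TR.TwiS
import Pool.Agent.P8H40.TR.Pt

/-!
# Elliptic and usual logarithms: translates of arbitrary points, separated sets
-/

set_option autoImplicit false

open Polynomial Filter Module
open scoped PeriodPair

namespace Pool.Agent.P8H40.TR

open Pool.Agent.Y124.TD Pool.Agent.Y124.TG Pool.Agent.P8H40.SE Pool.Agent.P8H76.CY

theorem ell_sets (hKEY : S_KEY) (hSIM : S_SIM) (hPW : S_PW) (hPRI : S_PRI) (hGFD : S_GFD) (hVAL : S_VAL) (hELL : S_ELL)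
    (Λ : PeriodPair) (g2 g3 : ℚ) (h2 : Λ.g₂ = (g2 : ℂ)) (h3 : Λ.g₃ = (g3 : ℂ)) {n s : ℕ} (A B : Fin n → ℚ)
    (hA : ∀ i, 0 < A i) (hAB : Function.Injective fun i => (A i, B i)) (b : Fin s → ℤ) (hb : Function.Injective b) :
    ∃ G : ℕ, ∀ k r δ D : ℕ, ∃ (c : ℝ) (M₀ : ℕ), 0 < c ∧ ∀ M : ℕ, M₀ ≤ M → ∀ (w : Fin r → ℂ) (z : Fin n → ℂ) (y : Fin s → ℂ),
      ∀ Ts : Finset ℕ, (∀ t ∈ Ts, M ≤ t ∧ (t : ℝ) ≤ M + (M : ℝ) ^ c) →
      (∀ t ∈ Ts, ∀ t' ∈ Ts, t ≠ t' → (G : ℤ) ≤ |(t : ℤ) - t'|) →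
      ∃ S : Finset ℕ, S ⊆ Ts ∧ S.card ≤ r + 5 * n + s + 6 ∧ ∀ m : Fin k → ℕ, Function.Injective m → (∀ l, m l ∈ Ts \ S) →
        ∀ (p : Fin k → Fin n → ℂ) (t : Fin k → Fin s → ℂ),
          (∀ l i, p l i ∉ Λ.lattice ∧ p l i - z i ∉ Λ.lattice ∧ ℘[Λ] (p l i - z i) = (A i : ℂ) * m l + B i) →
          (∀ l j, Complex.exp (t l j - y j) = (m l : ℂ) + b j) →
          ∀ (K : IntermediateField ℚ ℂ) [FiniteDimensional ℚ K], finrank ℚ K ≤ D →
            ∀ P : MvPolynomial ((Fin 5 ⊕ Fin r) ⊕ (Fin k × (Fin n ⊕ (Fin n ⊕ Fin s)))) K, (∀ x, P.degreeOf x ≤ δ) →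
              MvPolynomial.aeval (Sum.elim (cstE Λ w) (fun x => valE Λ (p x.1) (t x.1) x.2)) P = 0 →
                ∀ v : Fin k × (Fin n ⊕ (Fin n ⊕ Fin s)) → ℂ, MvPolynomial.aeval (Sum.elim (cstE Λ w) v) P = 0 := by
  classical
  -- the list of the `b`
  obtain ⟨s', b', emb, hb', hb0', hemb, hbe⟩ : ∃ (s' : ℕ) (b' : Fin s' → ℤ) (emb : Fin s → Option (Fin s')),
      Function.Injective b' ∧ (∀ i, b' i ≠ 0) ∧ Function.Injective emb ∧ ∀ j, (emb j).elim 0 b' = b j := by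
    by_cases hb0 : ∀ j, b j ≠ 0
    · exact ⟨s, b, some, hb, hb0, Option.some_injective _, fun j => rfl⟩
    · push Not at hb0
      obtain ⟨j0, hj0⟩ := hb0
      obtain ⟨s', rfl⟩ : ∃ s', s = s' + 1 := ⟨s - 1, by have := j0.2; omega⟩
      refine ⟨s', fun i => b (j0.succAbove i), finSuccEquiv' j0, hb.comp Fin.succAbove_right_injective, fun i h => ?_,
        (finSuccEquiv' j0).injective, fun j => ?_⟩
      · have h5 : b (j0.succAbove i) = b j0 := by rw [hj0]; exact h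
        exact Fin.succAbove_ne j0 i (hb h5)
      · rcases Fin.eq_self_or_eq_succAbove j0 j with rfl | ⟨i, rfl⟩
        · rw [finSuccEquiv'_at, hj0]
          rfl
        · rw [finSuccEquiv'_succAbove]
          rfl
  obtain ⟨F₀, F₁, G₀, G₁, hG₀, hG₁, hev⟩ := hELL Λ (g2 : ℝ) (g3 : ℝ) (by rw [h2]; push_cast; rfl) (by rw [h3]; push_cast; rfl)
  set f : Fin n → ℚ[X] := fun i => cubAB g2 g3 (A i) (B i) with hf
  set J : Fin n → ℕ → ℝ → ℂ := fun i => JE F₀ F₁ (A i) (B i) with hJdef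
  have hdeg : ∀ i, (f i).natDegree = 3 := fun i => cubAB_natDegree g2 g3 (B i) (hA i)
  have hodd : ∀ i, Odd (f i).natDegree := fun i => by rw [hdeg i]; decide
  have hsq : ∀ i, Squarefree (f i) := fun i => cubAB_squarefree Λ h2 h3 (B i) (hA i)
  have hlc : ∀ i, 0 < (f i).leadingCoeff := fun i => cubAB_lc g2 g3 (B i) (hA i)
  have hne : ∀ i i', i ≠ i' → ∀ c : ℚ, f i ≠ C c * f i' := fun i i' hii c h => by
    obtain ⟨e1, e2⟩ := cubAB_inj Λ h2 h3 (hA i) (hA i') h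
    exact hii (hAB (Prod.ext e1 e2))
  have hJ : ∀ i j, j + 2 ≤ (f i).natDegree → IsPrimQ (f i) j (J i j) := fun i j hj => by
    rw [hdeg i] at hj
    exact JE_prim hG₀ hG₁ (hev.mono fun t ht => ⟨ht.1, ht.2.1, ht.2.2.1, ht.2.2.2.1⟩) (hA i) (B i) j hj
  -- the values
  have hevA : ∀ᶠ t : ℝ in atTop, ∀ i, ∀ z : ℂ, z ∉ Λ.lattice → ℘[Λ] z = (((A i : ℝ) * t + B i : ℝ) : ℂ) →
      ∃ ε n₁ n₂ : ℤ, (ε = 1 ∨ ε = -1) ∧ z = -ε * F₀ ((A i : ℝ) * t + B i) + n₁ * Λ.ω₁ + n₂ * Λ.ω₂ ∧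
        zeta Λ z = ε * F₁ ((A i : ℝ) * t + B i) + n₁ * (2 * zeta Λ (Λ.ω₁ / 2)) + n₂ * (2 * zeta Λ (Λ.ω₂ / 2)) := by
    rw [eventually_all]
    intro i
    have hAR : (0 : ℝ) < A i := by exact_mod_cast hA i
    have hlim : Tendsto (fun t : ℝ => (A i : ℝ) * t + B i) atTop atTop :=
      tendsto_atTop_add_const_right _ _ (tendsto_id.const_mul_atTop hAR)
    exact hlim.eventually (hev.mono fun t ht => ht.2.2.2.2)
  obtain ⟨t₁, ht₁⟩ := eventually_atTop.1 hevA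
  obtain ⟨M₁, hM₁⟩ := exists_nat_ge (|t₁| + ∑ i, |(b' i : ℝ)|)
  have hposx : ∀ {x : ℕ}, M₁ < x → ∀ j : Option (Fin s'), 0 < (x : ℝ) + ((j.elim 0 b' : ℤ) : ℝ) := fun {x} hx j => by
    have h5 : (M₁ : ℝ) < x := by exact_mod_cast hx
    have h6 : 0 ≤ ∑ i, |(b' i : ℝ)| := Finset.sum_nonneg fun i _ => abs_nonneg _
    rcases j with _ | j
    · show 0 < (x : ℝ) + ((0 : ℤ) : ℝ)
      push_cast
      linarith [abs_nonneg t₁]
    · have h7 : |(b' j : ℝ)| ≤ ∑ i, |(b' i : ℝ)| := Finset.single_le_sum (f := fun i => |(b' i : ℝ)|) (fun _ _ => abs_nonneg _) (Finset.mem_univ j)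
      have h8 := neg_abs_le (b' j : ℝ)
      show 0 < (x : ℝ) + ((b' j : ℤ) : ℝ)
      linarith [abs_nonneg t₁]
  obtain ⟨V, instV, eJ, eb, Yv, heJ, heb, heJb, hYJ, hYb, G, hG1, hG⟩ :=
    twist_sets hKEY hSIM hPW hPRI hGFD hVAL f hodd hsq hlc hne b' hb' hb0' J hJ
  refine ⟨G, fun k r δ D => ?_⟩
  obtain ⟨c, M₀, hc, hmain⟩ := hG k (r + 4 * n + s + 5) (δ * (5 + r) + Fintype.card (Fin k × (Fin n ⊕ (Fin n ⊕ Fin s))) * (δ * 2))
    (Fintype.card (Fin k × (Fin n ⊕ (Fin n ⊕ Fin s))) * δ) (D * 2 ^ (k * n))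
  refine ⟨c, M₀ + M₁ + 1, hc, fun M hM w z y Ts hTs hTsep => ?_⟩
  have hcardΘ : Fintype.card ((Fin 5 ⊕ Fin r) ⊕ (Fin n × Fin 4 ⊕ Fin s)) = r + 4 * n + s + 5 := by
    simp only [Fintype.card_sum, Fintype.card_prod, Fintype.card_fin]
    ring
  let eΘ : (Fin 5 ⊕ Fin r) ⊕ (Fin n × Fin 4 ⊕ Fin s) ≃ Fin (r + 4 * n + s + 5) := Fintype.equivFinOfCardEq hcardΘ
  set θ : Fin (r + 4 * n + s + 5) → ℂ := fun i => cstT Λ w z y (eΘ.symm i) with hθ
  have hθe : ∀ x, θ (eΘ x) = cstT Λ w z y x := fun x => by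
    rw [hθ]
    simp only [Equiv.symm_apply_apply]
  obtain ⟨S₀, hS₀, hS₀c, hm⟩ := hmain M (by omega) θ Ts hTs hTsep
  -- the exceptional integers
  let exc : Fin n → Finset ℕ := fun i => if h : ∃ x : ℕ, ℘[Λ] (z i) = (A i : ℂ) * x + B i then {h.choose} else ∅
  have hexc1 : ∀ i, (exc i).card ≤ 1 := fun i => by
    show (if h : ∃ x : ℕ, ℘[Λ] (z i) = (A i : ℂ) * x + B i then {h.choose} else ∅ : Finset ℕ).card ≤ 1
    split_ifs
    · simp
    · simp
  have hexc2 : ∀ i (x : ℕ), ℘[Λ] (z i) = (A i : ℂ) * x + B i → x ∈ exc i := fun i x hx => by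
    show x ∈ (if h : ∃ x : ℕ, ℘[Λ] (z i) = (A i : ℂ) * x + B i then {h.choose} else ∅ : Finset ℕ)
    have hex : ∃ x : ℕ, ℘[Λ] (z i) = (A i : ℂ) * x + B i := ⟨x, hx⟩
    rw [dif_pos hex, Finset.mem_singleton]
    have h5 : (A i : ℂ) * x + B i = (A i : ℂ) * (hex.choose : ℕ) + B i := hx.symm.trans hex.choose_spec
    have h6 : (A i : ℂ) ≠ 0 := by exact_mod_cast (hA i).ne'
    have h7 : (x : ℂ) = (hex.choose : ℕ) := by
      apply mul_left_cancel₀ h6
      linear_combination h5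
    exact_mod_cast h7
  refine ⟨S₀ ∪ (Finset.univ.biUnion exc ∩ Ts), Finset.union_subset hS₀ Finset.inter_subset_right, ?_,
    fun m hinj hmT p t hp ht K _ hK P hP h0 v => ?_⟩
  · have h5 := Finset.card_biUnion_le_card_mul Finset.univ exc 1 fun i _ => hexc1 i
    rw [Finset.card_univ, Fintype.card_fin, mul_one] at h5
    have h6 := Finset.card_union_le S₀ (Finset.univ.biUnion exc ∩ Ts)
    have h7 := Finset.card_le_card (Finset.inter_subset_left (s₁ := Finset.univ.biUnion exc) (s₂ := Ts))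
    omega
  have hmT1 : ∀ l, m l ∈ Ts := fun l => (Finset.mem_sdiff.1 (hmT l)).1
  have hmT0 : ∀ l, m l ∈ Ts \ S₀ := fun l => Finset.mem_sdiff.2 ⟨hmT1 l, fun h =>
    (Finset.mem_sdiff.1 (hmT l)).2 (Finset.mem_union_left _ h)⟩
  have hmM : ∀ l, M₁ < m l := fun l => by
    have := (hTs (m l) (hmT1 l)).1
    omega
  have hmexc : ∀ l i, ℘[Λ] (z i) ≠ (A i : ℂ) * m l + B i := fun l i h =>
    (Finset.mem_sdiff.1 (hmT l)).2 (Finset.mem_union_right _ (Finset.mem_inter.2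
      ⟨Finset.mem_biUnion.2 ⟨i, Finset.mem_univ _, hexc2 i (m l) h⟩, hmT1 l⟩))
  -- the polynomial
  let eC : Fin 5 ⊕ Fin r ≃ Fin (5 + r) := finSumFinEquiv
  set θc : Fin (5 + r) → ℂ := fun i => cstE Λ w (eC.symm i) with hθc
  have hιC : Function.Injective (Sum.map eC id : (Fin 5 ⊕ Fin r) ⊕ (Fin k × (Fin n ⊕ (Fin n ⊕ Fin s))) → _) :=
    eC.injective.sumMap Function.injective_id
  set P₁ : MvPolynomial (Fin (5 + r) ⊕ (Fin k × (Fin n ⊕ (Fin n ⊕ Fin s)))) K := MvPolynomial.rename (Sum.map eC id) P with hP₁d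
  have hP₁ : ∀ x, P₁.degreeOf x ≤ δ := degreeOf_rename_le _ hιC _ hP
  have hev : ∀ v : (Fin k × (Fin n ⊕ (Fin n ⊕ Fin s))) → ℂ, MvPolynomial.eval v (subst θc P₁) =
      MvPolynomial.aeval (Sum.elim (cstE Λ w) v) P := by
    intro v
    rw [subst_eval, hP₁d, MvPolynomial.aeval_rename]
    congr 2
    funext x
    rcases x with x | x
    · show cstE Λ w (eC.symm (eC x)) = cstE Λ w x
      rw [Equiv.symm_apply_apply]
    · rfl
  by_contra hv
  have hQ0 : subst θc P₁ ≠ 0 := fun h => hv (by rw [← hev, h, map_zero])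
  -- the field
  obtain ⟨K', hKK', hfin, hrk, hK'⟩ := ext_field (n := 2) (by norm_num) K
    (Finset.univ.image fun x : Fin k × Fin n => ℘'[Λ] (p x.1 x.2 - z x.2)) (by
    intro x hx
    obtain ⟨i, -, rfl⟩ := Finset.mem_image.1 hx
    refine ⟨4 * (A i.2 * m i.1 + B i.2) ^ 3 - g2 * (A i.2 * m i.1 + B i.2) - g3, ?_⟩
    rw [Λ.derivWeierstrassP_sq _ (hp i.1 i.2).2.1, (hp i.1 i.2).2.2, h2, h3]
    push_cast
    ring)
  have hcardK : (Finset.univ.image fun x : Fin k × Fin n => ℘'[Λ] (p x.1 x.2 - z x.2)).card ≤ k * n := by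
    refine Finset.card_image_le.trans ?_
    rw [Finset.card_univ, Fintype.card_prod, Fintype.card_fin, Fintype.card_fin]
  have hrk' : finrank ℚ K' ≤ D * 2 ^ (k * n) :=
    hrk.trans (Nat.mul_le_mul hK (Nat.pow_le_pow_right (by norm_num) hcardK))
  -- the points
  have hx' : ∀ l, t₁ ≤ (m l : ℝ) := fun l => by
    have h7 : (M₁ : ℝ) < m l := by exact_mod_cast hmM l
    have h8 : 0 ≤ ∑ i, |(b' i : ℝ)| := Finset.sum_nonneg fun i _ => abs_nonneg _
    linarith [le_abs_self t₁]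
  have hcst : ∀ l i, (((A i : ℝ) * m l + B i : ℝ) : ℂ) = (A i : ℂ) * m l + B i := fun l i => by push_cast; rfl
  have hpt := fun l i => pt Λ (hA i).ne' (ht₁ (m l) (hx' l) i) (hp l i).1 (hp l i).2.1 ((hp l i).2.2.trans (hcst l i).symm)
    (fun h => hmexc l i (h.trans (hcst l i)))
  choose α₀ α₁ β₀ β₁ β₂ dd hα₁ hβ₂ hdd hpe hze hmem using hpt
  -- the logarithms
  have htl : ∀ l j, ∃ q : ℤ, t l j = y j + (q : ℂ) * (2 * Real.pi * Complex.I) + wl Yv (m l) none +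
      (emb j).elim 0 (fun i' => wl Yv (m l) (some (eb i'))) := by
    intro l j
    have h8 : Complex.exp (t l j - y j) = Complex.exp ((Real.log ((m l : ℝ) + (((emb j).elim 0 b' : ℤ) : ℝ)) : ℝ) : ℂ) := by
      rw [ht l j, ← Complex.ofReal_exp, Real.exp_log (hposx (hmM l) (emb j)), hbe j]
      push_cast
      rfl
    obtain ⟨q, hq⟩ := Complex.exp_eq_exp_iff_exists_int.1 h8
    refine ⟨q, ?_⟩
    have h9 : ((Real.log ((m l : ℝ) + (((emb j).elim 0 b' : ℤ) : ℝ)) : ℝ) : ℂ) = wl Yv (m l) none +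
        (emb j).elim 0 (fun i' => wl Yv (m l) (some (eb i'))) := by
      have hn0 : wl Yv (m l) none = ((Real.log (m l) : ℝ) : ℂ) := rfl
      rw [hn0]
      rcases he : emb j with _ | i'
      · simp
      · show _ = _ + Yv (m l) (eb i')
        rw [hYb]
        have e1 : (0 : ℝ) < m l := by
          have := hposx (hmM l) none
          simpa using this
        have e2 := hposx (hmM l) (some i')
        have e3 : Real.log (1 + b' i' / m l) = Real.log ((m l : ℝ) + (((some i').elim 0 b' : ℤ) : ℝ)) - Real.log (m l) := by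
          rw [← Real.log_div e2.ne' e1.ne']
          congr 1
          show 1 + (b' i' : ℝ) / m l = ((m l : ℝ) + ((b' i' : ℤ) : ℝ)) / m l
          field_simp
        rw [e3]
        push_cast
        ring
    rw [h9] at hq
    linear_combination hq
  choose q hq using htl
  have hj0 : ∀ i, 0 + 2 ≤ (f i).natDegree := fun i => by rw [hdeg i]; norm_num
  have hj1 : ∀ i, 1 + 2 ≤ (f i).natDegree := fun i => by rw [hdeg i]
  let lin : Fin k × (Fin n ⊕ (Fin n ⊕ Fin s)) → MvPolynomial (Fin k × Option V) ℂ := fun x =>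
    Sum.elim (fun i => MvPolynomial.C (α₀ x.1 i) + MvPolynomial.C (α₁ x.1 i) * MvPolynomial.X (x.1, some (eJ i 0 (hj0 i))))
      (Sum.elim (fun i => MvPolynomial.C (β₀ x.1 i) + MvPolynomial.C (β₁ x.1 i) * MvPolynomial.X (x.1, some (eJ i 0 (hj0 i))) +
        MvPolynomial.C (β₂ x.1 i) * MvPolynomial.X (x.1, some (eJ i 1 (hj1 i))))
      (fun j => MvPolynomial.C (y j + (q x.1 j : ℂ) * (2 * Real.pi * Complex.I)) + MvPolynomial.X (x.1, none) +
        (emb j).elim 0 (fun i' => MvPolynomial.X (x.1, some (eb i'))))) x.2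
  let d : Fin k × (Fin n ⊕ (Fin n ⊕ Fin s)) → ℂ := fun x => Sum.elim (fun _ => 1) (Sum.elim (fun i => dd x.1 i) (fun _ => 1)) x.2
  have hd0 : ∀ x, d x ≠ 0 := by
    rintro ⟨l, i | i | j⟩
    · exact one_ne_zero
    · exact hdd l i
    · exact one_ne_zero
  have heval : ∀ x, MvPolynomial.eval (fun o : Fin k × Option V => wl Yv (m o.1) o.2) (lin x) =
      d x * valE Λ (p x.1) (t x.1) x.2 := by
    rintro ⟨l, i | i | j⟩
    · show MvPolynomial.eval _ (MvPolynomial.C (α₀ l i) + MvPolynomial.C (α₁ l i) * MvPolynomial.X (l, some (eJ i 0 (hj0 i)))) = 1 * p l i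
      rw [map_add, map_mul, MvPolynomial.eval_C, MvPolynomial.eval_C, MvPolynomial.eval_X, one_mul]
      show α₀ l i + α₁ l i * Yv (m l) (eJ i 0 (hj0 i)) = p l i
      rw [hYJ, hpe l i]
    · show MvPolynomial.eval _ (MvPolynomial.C (β₀ l i) + MvPolynomial.C (β₁ l i) * MvPolynomial.X (l, some (eJ i 0 (hj0 i))) +
        MvPolynomial.C (β₂ l i) * MvPolynomial.X (l, some (eJ i 1 (hj1 i)))) = dd l i * zeta Λ (p l i)
      simp only [map_add, map_mul, MvPolynomial.eval_C, MvPolynomial.eval_X]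
      show β₀ l i + β₁ l i * Yv (m l) (eJ i 0 (hj0 i)) + β₂ l i * Yv (m l) (eJ i 1 (hj1 i)) = _
      rw [hYJ, hYJ, hze l i]
    · show MvPolynomial.eval _ (MvPolynomial.C (y j + (q l j : ℂ) * (2 * Real.pi * Complex.I)) + MvPolynomial.X (l, none) +
        (emb j).elim 0 (fun i' => MvPolynomial.X (l, some (eb i')))) = 1 * t l j
      rw [one_mul, hq l j, map_add, map_add, MvPolynomial.eval_C, MvPolynomial.eval_X]
      rcases emb j with _ | i'
      · simp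
      · simp
  -- surjectivity
  have hsurj : ∀ v : Fin k × (Fin n ⊕ (Fin n ⊕ Fin s)) → ℂ, ∃ yv : Fin k × Option V → ℂ,
      ∀ x, MvPolynomial.eval yv (lin x) = d x * v x := by
    intro v
    let Φ : Fin n ⊕ (Fin n ⊕ Fin s') → V := Sum.elim (fun i => eJ i 0 (hj0 i)) (Sum.elim (fun i => eJ i 1 (hj1 i)) eb)
    have hΦ : Function.Injective Φ := by
      refine Function.Injective.sumElim (fun i i' h => (heJ _ _ _ _ _ _ h).1) (Function.Injective.sumElim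
        (fun i i' h => (heJ _ _ _ _ _ _ h).1) heb fun i i' => heJb _ _ _ _) ?_
      rintro i (i' | i') h
      · exact absurd (heJ _ _ _ _ _ _ h).2 (by norm_num)
      · exact heJb _ _ _ _ h
    let a0 : Fin k → Fin n → ℂ := fun l i => (v (l, Sum.inl i) - α₀ l i) / α₁ l i
    let yn : Fin k → Option (Fin s') → ℂ := fun l => Function.extend emb
      (fun j => v (l, Sum.inr (Sum.inr j)) - (y j + (q l j : ℂ) * (2 * Real.pi * Complex.I))) 0
    let g : Fin k → Fin n ⊕ (Fin n ⊕ Fin s') → ℂ := fun l => Sum.elim (a0 l)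
      (Sum.elim (fun i => (dd l i * v (l, Sum.inr (Sum.inl i)) - β₀ l i - β₁ l i * a0 l i) / β₂ l i)
        (fun i' => yn l (some i') - yn l none))
    let yv : Fin k × Option V → ℂ := fun o => o.2.elim (yn o.1 none) (Function.extend Φ (g o.1) 0)
    have hyΦ : ∀ l x, yv (l, some (Φ x)) = g l x := fun l x => hΦ.extend_apply _ _ _
    refine ⟨yv, ?_⟩
    rintro ⟨l, i | i | j⟩
    · show MvPolynomial.eval yv (MvPolynomial.C (α₀ l i) + MvPolynomial.C (α₁ l i) * MvPolynomial.X (l, some (Φ (Sum.inl i)))) = 1 * v _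
      simp only [map_add, map_mul, MvPolynomial.eval_C, MvPolynomial.eval_X]
      rw [hyΦ]
      show α₀ l i + α₁ l i * ((v (l, Sum.inl i) - α₀ l i) / α₁ l i) = _
      have := hα₁ l i
      field_simp
      ring
    · show MvPolynomial.eval yv (MvPolynomial.C (β₀ l i) + MvPolynomial.C (β₁ l i) * MvPolynomial.X (l, some (Φ (Sum.inl i))) +
        MvPolynomial.C (β₂ l i) * MvPolynomial.X (l, some (Φ (Sum.inr (Sum.inl i))))) = dd l i * v _
      simp only [map_add, map_mul, MvPolynomial.eval_C, MvPolynomial.eval_X]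
      rw [hyΦ, hyΦ]
      show β₀ l i + β₁ l i * a0 l i + β₂ l i * ((dd l i * v (l, Sum.inr (Sum.inl i)) - β₀ l i - β₁ l i * a0 l i) / β₂ l i) = _
      have := hβ₂ l i
      field_simp
      ring
    · show MvPolynomial.eval yv (MvPolynomial.C (y j + (q l j : ℂ) * (2 * Real.pi * Complex.I)) + MvPolynomial.X (l, none) +
        (emb j).elim 0 (fun i' => MvPolynomial.X (l, some (Φ (Sum.inr (Sum.inr i')))))) = 1 * v _
      have h5 : yn l (emb j) = v (l, Sum.inr (Sum.inr j)) - (y j + (q l j : ℂ) * (2 * Real.pi * Complex.I)) := hemb.extend_apply _ _ _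
      have h6 : yv (l, none) = yn l none := rfl
      rcases he : emb j with _ | i'
      · rw [he] at h5
        simp only [map_add, MvPolynomial.eval_C, MvPolynomial.eval_X, Option.elim_none, map_zero]
        rw [h6, h5]
        ring
      · rw [he] at h5
        simp only [map_add, MvPolynomial.eval_C, MvPolynomial.eval_X, Option.elim_some]
        rw [hyΦ, h6]
        show _ + yn l none + (yn l (some i') - yn l none) = _
        rw [h5]
        ring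
  -- the bounds
  have hQδ : ∀ u, (subst θc P₁).coeff u ≠ 0 → ∀ x, u x ≤ δ := fun u hu x => subst_degree θc P₁ hP₁ hu x
  have hbd : ∀ K₂ : IntermediateField ℚ ℂ, K' ≤ K₂ → ∀ W : Submodule K₂ ℂ, (1 : ℂ) ∈ W → (∀ i, θ i ∈ W) →
      Bd W (δ * (5 + r) + Fintype.card (Fin k × (Fin n ⊕ (Fin n ⊕ Fin s))) * (δ * 2))
        (Fintype.card (Fin k × (Fin n ⊕ (Fin n ⊕ Fin s))) * δ) (sb (subst θc P₁) δ lin d) := by
    intro K₂ hK₂ W h1W hθW
    have hWθ : ∀ x, cstT Λ w z y x ∈ W := fun x => by rw [← hθe x]; exact hθW _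
    have hWK : ∀ x : ℂ, x ∈ K₂ → x ∈ W := fun x hx => by
      have h7 : x = ((⟨x, hx⟩ : K₂) : K₂) • (1 : ℂ) := by
        rw [Algebra.smul_def, mul_one]
        rfl
      rw [h7]
      exact Submodule.smul_mem _ _ h1W
    have hup : ∀ {x : ℂ}, x ∈ W → x ∈ W ^ 2 := fun hy => pow_mem_mono h1W (by norm_num : 1 ≤ 2) (by rw [pow_one]; exact hy)
    have hme : ∀ l i, α₀ l i ∈ W ^ 2 ∧ α₁ l i ∈ W ^ 2 ∧ β₀ l i ∈ W ^ 2 ∧ β₁ l i ∈ W ^ 2 ∧ β₂ l i ∈ W ^ 2 ∧ dd l i ∈ W ^ 2 := by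
      intro l i
      have k0 : ℘'[Λ] (p l i - z i) ∈ K' := hK' _ (Finset.mem_image.2 ⟨(l, i), Finset.mem_univ _, rfl⟩)
      have k1 : ℘'[Λ] (p l i - z i) ∈ W := hWK _ (hK₂ k0)
      have c0 : z i ∈ W := hWθ (Sum.inr (Sum.inl (i, 0)))
      have c1 : zeta Λ (z i) ∈ W := hWθ (Sum.inr (Sum.inl (i, 1)))
      have c2 : ℘[Λ] (z i) ∈ W := hWθ (Sum.inr (Sum.inl (i, 2)))
      have c3 : ℘'[Λ] (z i) ∈ W := hWθ (Sum.inr (Sum.inl (i, 3)))
      have d0 : Λ.ω₁ ∈ W := hWθ (Sum.inl (Sum.inl 0))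
      have d1 : Λ.ω₂ ∈ W := hWθ (Sum.inl (Sum.inl 1))
      have d2 : 2 * zeta Λ (Λ.ω₁ / 2) ∈ W := hWθ (Sum.inl (Sum.inl 2))
      have d3 : 2 * zeta Λ (Λ.ω₂ / 2) ∈ W := hWθ (Sum.inl (Sum.inl 3))
      have c4 : (((A i : ℝ) * m l + B i : ℝ) : ℂ) ∈ W := by
        have h7 : (((A i : ℝ) * m l + B i : ℝ) : ℂ) = ((A i * m l + B i : ℚ) : ℂ) * 1 := by push_cast; ring
        rw [h7]
        exact Pool.Agent.Y124.TG.mQ _ h1W
      exact hmem l i K₂ W h1W c4 c0 c1 c2 c3 k1 d0 d1 d2 d3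
    have hX : ∀ x : Fin k × Option V, Bd W 2 1 (MvPolynomial.X x : MvPolynomial (Fin k × Option V) ℂ) := fun x =>
      (Bd.X x).mono h1W (by norm_num) le_rfl
    have hCX : ∀ {cc : ℂ}, cc ∈ W ^ 2 → ∀ x : Fin k × Option V, Bd W 2 1 (MvPolynomial.C cc * MvPolynomial.X x : MvPolynomial (Fin k × Option V) ℂ) :=
      fun hcc x => ((Bd.C hcc).mul (Bd.X x)).mono h1W (by norm_num) (by norm_num)
    have hC : ∀ {cc : ℂ}, cc ∈ W ^ 2 → Bd W 2 1 (MvPolynomial.C cc : MvPolynomial (Fin k × Option V) ℂ) :=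
      fun hcc => (Bd.C hcc).mono h1W le_rfl (by norm_num)
    have hWc : ∀ x, cstE Λ w x ∈ W := fun x => hWθ (Sum.inl x)
    have hWc' : ∀ i, θc i ∈ W := fun i => hWc (eC.symm i)
    have hcoe : ∀ u, (subst θc P₁).coeff u ∈ W ^ (δ * (5 + r)) := fun u => subst_mem (hKK'.trans hK₂) θc P₁ hP₁ h1W hWc' u
    refine sb_bd h1W hQδ hcoe (b := 2) ?_ ?_
    · rintro ⟨l, i | i | j⟩
      · exact (hC (hme l i).1).add (hCX (hme l i).2.1 _)
      · exact ((hC (hme l i).2.2.1).add (hCX (hme l i).2.2.2.1 _)).add (hCX (hme l i).2.2.2.2.1 _)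
      · refine ((hC (hup ?_)).add (hX _)).add ?_
        · exact Submodule.add_mem _ (hWθ (Sum.inr (Sum.inr j))) (zmul_mem _ (hWθ (Sum.inl (Sum.inl 4))))
        · rcases emb j with _ | i'
          · exact Bd.zero 2 1
          · exact hX _
    · rintro ⟨l, i | i | j⟩
      · exact hup h1W
      · exact (hme l i).2.2.2.2.2
      · exact hup h1W
  -- the contradiction
  refine hm m hinj hmT0 K' hrk' (sb (subst θc P₁) δ lin d) ?_ ?_ (fun K₂ hK₂ W h1W hθW => (hbd K₂ hK₂ W h1W hθW).1) ?_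
  · intro hz0
    apply hQ0
    refine MvPolynomial.funext fun v' => ?_
    obtain ⟨yv, hyv⟩ := hsurj v'
    have h5 := sb_eval hQδ hyv
    rw [hz0, map_zero] at h5
    rw [map_zero]
    exact ((mul_eq_zero.1 h5.symm).resolve_left (Finset.prod_ne_zero_iff.2 fun x _ => pow_ne_zero _ (hd0 x)))
  · intro u hu x
    have h5 := (hbd K' le_rfl ⊤ trivial (fun _ => trivial)).2 x
    exact (MvPolynomial.degreeOf_le_iff.1 h5) u (MvPolynomial.mem_support_iff.2 hu)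
  · rw [sb_eval hQδ heval, hev, h0, mul_zero]

end Pool.Agent.P8H40.TR
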