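import Pool.Agent.P8H40.CY.Sets
import Pool.Agent.P8H76.CY.Pol

/-!
# Affine substitutions with denominators, and the general form of the theorem on separated sets
-/

set_option autoImplicit false

open PowerSeries Module

namespace Pool.Agent.P8H40.TR

open Pool.Agent.Y124.TD Pool.Agent.Y124.TG Pool.Agent.Y120.GH Pool.Agent.Y124.TL Pool.Agent.P8H40.SE Pool.Agent.P8H76.CY
open Pool.Agent.P8H40.CY (rescale vals)

/-- affine substitution with denominators -/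
noncomputable def sb {τ υ : Type} [Fintype τ] (Q : MvPolynomial τ ℂ) (δ : ℕ) (lin : τ → MvPolynomial υ ℂ) (d : τ → ℂ) :
    MvPolynomial υ ℂ :=
  ∑ u ∈ Q.support, MvPolynomial.C (Q.coeff u) * ∏ x, (lin x ^ u x * MvPolynomial.C (d x) ^ (δ - u x))

lemma sb_eval {τ υ : Type} [Fintype τ] {Q : MvPolynomial τ ℂ} {δ : ℕ} (hQ : ∀ u, Q.coeff u ≠ 0 → ∀ x, u x ≤ δ)
    {lin : τ → MvPolynomial υ ℂ} {d : τ → ℂ} {y : υ → ℂ} {v : τ → ℂ} (h : ∀ x, MvPolynomial.eval y (lin x) = d x * v x) :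
    MvPolynomial.eval y (sb Q δ lin d) = (∏ x, d x ^ δ) * MvPolynomial.eval v Q := by
  unfold sb
  rw [map_sum, MvPolynomial.eval_eq', Finset.mul_sum]
  refine Finset.sum_congr rfl fun u hu => ?_
  rw [map_mul, MvPolynomial.eval_C, map_prod]
  have h2 : ∀ x, MvPolynomial.eval y (lin x ^ u x * MvPolynomial.C (d x) ^ (δ - u x)) = d x ^ δ * v x ^ u x := by
    intro x
    have h3 := hQ u (MvPolynomial.mem_support_iff.1 hu) x
    rw [map_mul, map_pow, map_pow, MvPolynomial.eval_C, h x, mul_pow, mul_right_comm, ← pow_add, Nat.add_sub_cancel' h3]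
  rw [Finset.prod_congr rfl fun x _ => h2 x, Finset.prod_mul_distrib]
  ring

lemma sb_bd {τ υ : Type} [Fintype τ] {K : IntermediateField ℚ ℂ} {W : Submodule K ℂ} (h1 : (1 : ℂ) ∈ W)
    {Q : MvPolynomial τ ℂ} {δ a b : ℕ} (hQ : ∀ u, Q.coeff u ≠ 0 → ∀ x, u x ≤ δ) (hQa : ∀ u, Q.coeff u ∈ W ^ a)
    {lin : τ → MvPolynomial υ ℂ} {d : τ → ℂ} (hl : ∀ x, Bd W b 1 (lin x)) (hd : ∀ x, d x ∈ W ^ b) :
    Bd W (a + Fintype.card τ * (δ * b)) (Fintype.card τ * δ) (sb Q δ lin d) := by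
  unfold sb
  refine Bd.sum _ fun u hu => ?_
  have h2 : ∀ x ∈ (Finset.univ : Finset τ), Bd W (δ * b) δ (lin x ^ u x * MvPolynomial.C (d x) ^ (δ - u x)) := by
    intro x _
    have h3 := hQ u (MvPolynomial.mem_support_iff.1 hu) x
    refine (((hl x).pow (u x)).mul ((Bd.C (hd x)).pow (δ - u x))).mono h1 (le_of_eq ?_) ?_
    · rw [← Nat.add_mul, Nat.add_sub_cancel' h3]
    · rw [mul_zero, mul_one, add_zero]
      exact h3
  have h4 := (Bd.C (hQa u)).mul (Bd.prod Finset.univ h2)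
  rw [zero_add] at h4
  simpa using h4

/-- **The general form** -/
theorem sets_gen {r₀ : ℕ} {T : Polynomial ℤ} {A : Fin r₀ → Fin r₀ → Polynomial ℤ} {h : Fin r₀ → PowerSeries ℚ} (hF : GF T A h)
    {V : Type} [Fintype V] (T₀ : V → Fin r₀) (hT : AlgebraicIndependent (Polynomial ℚ) (fun v => h (T₀ v))) {n : ℕ} (hn : 0 < n)
    (Y : ℕ → V → ℂ) (m₀ : ℕ)
    (hY : ∀ m : ℕ, m₀ ≤ m → ∀ v, ∃ ρ : ℂ, ρ ≠ 0 ∧ (∃ q : ℚ, ρ ^ n = q) ∧ hv h (m : ℝ) (T₀ v) = ρ * Y m v) :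
    ∃ G : ℕ, 1 ≤ G ∧ ∀ k r a δ D : ℕ, ∃ (c : ℝ) (M₀ : ℕ), 0 < c ∧ ∀ M : ℕ, M₀ ≤ M → ∀ θ : Fin r → ℂ,
      ∀ Ts : Finset ℕ, (∀ t ∈ Ts, M ≤ t ∧ (t : ℝ) ≤ M + (M : ℝ) ^ c) →
      (∀ t ∈ Ts, ∀ t' ∈ Ts, t ≠ t' → (G : ℤ) ≤ |(t : ℤ) - t'|) →
      ∃ S : Finset ℕ, S ⊆ Ts ∧ S.card ≤ r + 1 ∧ ∀ m : Fin k → ℕ, Function.Injective m → (∀ l, m l ∈ Ts \ S) →
        ∀ (K : IntermediateField ℚ ℂ) [FiniteDimensional ℚ K], finrank ℚ K ≤ D →
          ∀ Q : MvPolynomial (Fin k × Option V) ℂ, Q ≠ 0 → (∀ u, Q.coeff u ≠ 0 → ∀ x, u x ≤ δ) →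
            (∀ K' : IntermediateField ℚ ℂ, K ≤ K' → ∀ W : Submodule K' ℂ, (1 : ℂ) ∈ W → (∀ i, θ i ∈ W) → ∀ u, Q.coeff u ∈ W ^ a) →
            MvPolynomial.eval (fun x => wl Y (m x.1) x.2) Q ≠ 0 := by
  classical
  obtain ⟨G, hG1, hG⟩ := Pool.Agent.P8H5.CY.gre Pool.Agent.P8H40.CY.clt hF T₀ hT
  refine ⟨G, hG1, fun k r a δ D => ?_⟩
  obtain ⟨a', δ', heli⟩ := Pool.Agent.P8H93.CY.eli (Option V) k a δ
  set D' := D * n ^ (k * Fintype.card V) with hD'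
  obtain ⟨c, M₁, hc, hmain⟩ := hG (Option V) (by rw [Fintype.card_option]) k r a' δ' 1 D'
  refine ⟨c, M₁ + m₀, hc, fun M hM θ Ts hTs hTsep => ?_⟩
  obtain ⟨S, hS, hSc, hSt⟩ := hmain M (by omega) θ (fun m => vals h T₀ m) (fun x _ K W h1 hw =>
    ⟨1, one_ne_zero, by rw [pow_one]; exact h1, fun o => by rw [one_mul, pow_one]; exact hw o⟩) Ts hTs hTsep
  refine ⟨S, hS, hSc, fun m hinj hmT K _ hK Q hne hQd hQa h0 => ?_⟩
  have hmM : ∀ l, M ≤ m l := fun l => (hTs (m l) (Finset.mem_sdiff.1 (hmT l)).1).1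
  choose ρ hρ0 hρq hρ using fun x : Fin k × V => hY (m x.1) (by have := hmM x.1; omega) x.2
  obtain ⟨K₁, hKK₁, hfin, hrk, hρK⟩ := ext_field hn K (Finset.univ.image ρ) (by
    intro x hx
    obtain ⟨y, -, rfl⟩ := Finset.mem_image.1 hx
    exact hρq y)
  have hcard : (Finset.univ.image ρ).card ≤ k * Fintype.card V := by
    refine Finset.card_image_le.trans ?_
    rw [Finset.card_univ, Fintype.card_prod, Fintype.card_fin]
  have hrk' : finrank ℚ K₁ ≤ D' := hrk.trans (Nat.mul_le_mul hK (Nat.pow_le_pow_right hn hcard))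
  let sc : Fin k × Option V → ℂ := fun x => x.2.elim 1 fun v => (ρ (x.1, v))⁻¹
  have hsc : ∀ x, sc x ≠ 0 := by
    rintro ⟨l, o⟩
    rcases o with _ | v
    · exact one_ne_zero
    · exact inv_ne_zero (hρ0 (l, v))
  have hscK : ∀ x, sc x ∈ K₁ := by
    rintro ⟨l, o⟩
    rcases o with _ | v
    · exact K₁.one_mem
    · exact K₁.inv_mem (hρK _ (Finset.mem_image_of_mem _ (Finset.mem_univ _)))
  obtain ⟨F, hF0, hFc, hFe, hFd⟩ := rescale Q hne sc hsc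
  have hev : MvPolynomial.eval (fun x : Fin k × Option V => vals h T₀ (m x.1) x.2) F = 0 := by
    rw [hFe]
    have h5 : (fun x : Fin k × Option V => sc x * vals h T₀ (m x.1) x.2) = fun x => wl Y (m x.1) x.2 := by
      funext x
      obtain ⟨l, o⟩ := x
      rcases o with _ | v
      · show 1 * ((Real.log (m l) : ℝ) : ℂ) = ((Real.log (m l) : ℝ) : ℂ)
        rw [one_mul]
      · show (ρ (l, v))⁻¹ * hv h (m l : ℝ) (T₀ v) = Y (m l) v
        rw [hρ (l, v), ← mul_assoc, inv_mul_cancel₀ (hρ0 _), one_mul]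
    rw [h5]
    exact h0
  obtain ⟨b, s, hbs, hdep⟩ := heli F hF0 (hFd δ hQd) (fun l => vals h T₀ (m l)) hev
  refine hSt (m b) (hmT b) (s.image m) ?_ ?_ ?_ K₁ hfin hrk' ?_
  · intro x hx
    obtain ⟨l, -, rfl⟩ := Finset.mem_image.1 hx
    exact hmT l
  · intro hx
    obtain ⟨l, hl, hlb⟩ := Finset.mem_image.1 hx
    exact hbs (hinj hlb ▸ hl)
  · refine Finset.card_image_le.trans ?_
    have := Finset.card_le_univ s
    rwa [Fintype.card_fin] at this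
  · intro K' hKK' W h1 hz hC
    refine hdep K' W h1 (fun u => ?_) fun l hl x => hC (m l) (Finset.mem_image_of_mem _ hl) x
    rw [hFc]
    have h6 : ∏ x, sc x ^ u x ∈ K' := K'.prod_mem fun x _ => _root_.pow_mem (hKK' (hscK x)) _
    have h7 : Q.coeff u * ∏ x, sc x ^ u x = ((⟨_, h6⟩ : K') : K') • Q.coeff u := by
      rw [Algebra.smul_def, mul_comm]
      rfl
    rw [h7]
    exact Submodule.smul_mem _ _ (hQa K' (hKK₁.trans hKK') W h1 hz u)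

end Pool.Agent.P8H40.TR
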