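import Pool.Agent.P8H40.SE.Twist
import Pool.Agent.P8H40.TR.CovF0
import Pool.Agent.P8H40.TR.Sub

/-!
# Hyperelliptic integrals of several curves of odd degree: separated sets
-/

set_option autoImplicit false

open Polynomial Filter Module

namespace Pool.Agent.P8H40.TR

open Pool.Agent.P8H40.SE

theorem twist_sets (hKEY : S_KEY) (hSIM : S_SIM) (hPW : S_PW) (hPRI : S_PRI) (hGFD : S_GFD) (hVAL : S_VAL) {n s : ℕ}
    (f : Fin n → ℚ[X]) (hodd : ∀ i, Odd (f i).natDegree) (hsq : ∀ i, Squarefree (f i)) (hlc : ∀ i, 0 < (f i).leadingCoeff)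
    (hne : ∀ i i', i ≠ i' → ∀ c : ℚ, f i ≠ C c * f i') (b : Fin s → ℤ) (hb : Function.Injective b) (hb0 : ∀ i, b i ≠ 0)
    (J : Fin n → ℕ → ℝ → ℂ) (hJ : ∀ i j, j + 2 ≤ (f i).natDegree → IsPrimQ (f i) j (J i j)) :
    ∃ (V : Type) (_ : Fintype V) (eJ : ∀ (i : Fin n) (j : ℕ), j + 2 ≤ (f i).natDegree → V) (eb : Fin s → V) (Yv : ℕ → V → ℂ),
      (∀ i j hj i' j' hj', eJ i j hj = eJ i' j' hj' → i = i' ∧ j = j') ∧ Function.Injective eb ∧ (∀ i j hj i', eJ i j hj ≠ eb i') ∧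
      (∀ m i j hj, Yv m (eJ i j hj) = J i j m) ∧ (∀ m i, Yv m (eb i) = ((Real.log (1 + b i / m) : ℝ) : ℂ)) ∧
    ∃ G : ℕ, 1 ≤ G ∧ ∀ k r a δ D : ℕ, ∃ (c : ℝ) (M₀ : ℕ), 0 < c ∧ ∀ M : ℕ, M₀ ≤ M → ∀ θ : Fin r → ℂ,
      ∀ Ts : Finset ℕ, (∀ t ∈ Ts, M ≤ t ∧ (t : ℝ) ≤ M + (M : ℝ) ^ c) →
      (∀ t ∈ Ts, ∀ t' ∈ Ts, t ≠ t' → (G : ℤ) ≤ |(t : ℤ) - t'|) →
      ∃ S : Finset ℕ, S ⊆ Ts ∧ S.card ≤ r + 1 ∧ ∀ m : Fin k → ℕ, Function.Injective m → (∀ l, m l ∈ Ts \ S) →
        ∀ (K : IntermediateField ℚ ℂ) [FiniteDimensional ℚ K], finrank ℚ K ≤ D →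
          ∀ Q : MvPolynomial (Fin k × Option V) ℂ, Q ≠ 0 → (∀ u, Q.coeff u ≠ 0 → ∀ x, u x ≤ δ) →
            (∀ K' : IntermediateField ℚ ℂ, K ≤ K' → ∀ W : Submodule K' ℂ, (1 : ℂ) ∈ W → (∀ i, θ i ∈ W) → ∀ u, Q.coeff u ∈ W ^ a) →
            MvPolynomial.eval (fun x => wl Yv (m x.1) x.2) Q ≠ 0 := by
  classical
  obtain ⟨p, g, S, hgsq, hgdeg, hglc, hS⟩ := factor_family f hsq hlc
  choose c hc hcf using hS
  have hf0 : ∀ i, f i ≠ 0 := fun i h => by
    have := hlc i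
    rw [h, leadingCoeff_zero] at this
    exact lt_irrefl _ this
  have hinjZ : Function.Injective (Int.castRingHom ℚ) := RingHom.injective_int _
  have hg0 : ∀ j, (g j).map (Int.castRingHom ℚ) ≠ 0 := fun j h => by
    have h1 := (Polynomial.map_eq_zero_iff hinjZ).1 h
    have := hglc j
    rw [h1, leadingCoeff_zero] at this
    exact lt_irrefl _ this
  -- the degrees
  have hdeg : ∀ i, ∑ j ∈ S i, (g j).natDegree = (f i).natDegree := by
    intro i
    have h1 := congrArg natDegree (hcf i)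
    rw [natDegree_C_mul (hc i).ne', natDegree_prod _ _ fun j _ => hg0 j] at h1
    rw [h1]
    exact Finset.sum_congr rfl fun j _ => (natDegree_map_eq_of_injective hinjZ _).symm
  let a : Fin n → Fin p → ℚ := fun i j => if j ∈ S i then 1 / 2 else 0
  have haS : ∀ i j, a i j = if j ∈ S i then 1 / 2 else 0 := fun i j => rfl
  have ha : ∀ i j, 0 ≤ a i j ∧ a i j < 1 := by
    intro i j
    rw [haS]
    split_ifs <;> norm_num
  have hinj : Function.Injective a := by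
    intro i i' h
    by_contra hii
    have hSS : S i = S i' := by
      ext j
      have h1 := congrFun h j
      rw [haS, haS] at h1
      by_cases h2 : j ∈ S i <;> by_cases h3 : j ∈ S i' <;> simp [h2, h3] at h1 ⊢
    have h1 : C (c i) * f i = C (c i') * f i' := by rw [hcf, hcf, hSS]
    apply hne i i' hii (c i' / c i)
    have h2 : C (c i) ≠ 0 := C_ne_zero.2 (hc i).ne'
    apply mul_left_cancel₀ h2
    rw [h1, ← mul_assoc, ← C_mul, mul_div_cancel₀ _ (hc i).ne']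
  have hsum : ∀ i, ∑ j, a i j * ((g j).natDegree : ℚ) = (f i).natDegree / 2 := by
    intro i
    have h1 : ∑ j, a i j * ((g j).natDegree : ℚ) = ∑ j ∈ S i, 1 / 2 * ((g j).natDegree : ℚ) := by
      rw [← Finset.sum_subset (Finset.subset_univ (S i))]
      · exact Finset.sum_congr rfl fun j hj => by rw [haS, if_pos hj]
      · intro j _ hj
        rw [haS, if_neg hj, zero_mul]
    rw [h1, ← Finset.mul_sum, ← hdeg i]
    push_cast
    ring
  have hA : ∀ i, ∀ z : ℤ, ∑ j, a i j * ((g j).natDegree : ℚ) ≠ z := by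
    intro i z hz
    rw [hsum i] at hz
    obtain ⟨u, hu⟩ := hodd i
    have h1 : ((f i).natDegree : ℚ) = 2 * z := by linarith
    have h2 : (((f i).natDegree : ℤ)) = 2 * z := by exact_mod_cast h1
    omega
  have hNn : ∀ i, Nn g (a i) = (f i).natDegree := by
    intro i
    unfold Nn
    rw [← hdeg i, ← Finset.sum_subset (Finset.subset_univ (S i))]
    · refine Finset.sum_congr rfl fun j hj => ?_
      rw [haS, if_pos hj, if_neg (by norm_num)]
    · intro j _ hj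
      rw [haS, if_neg hj, if_pos rfl]
  -- the primitives
  let ρ : Fin n → ℝ := fun i => ((c i : ℝ)) ^ (-(1 / 2) : ℝ)
  have hcR : ∀ i, (0 : ℝ) < c i := fun i => by exact_mod_cast hc i
  have hρ0 : ∀ i, 0 < ρ i := fun i => Real.rpow_pos_of_pos (hcR i) _
  have hρ2 : ∀ i, ρ i ^ 2 = ((1 / c i : ℚ) : ℝ) := by
    intro i
    show (((c i : ℝ)) ^ (-(1 / 2) : ℝ)) ^ 2 = _
    rw [← Real.rpow_natCast, ← Real.rpow_mul (hcR i).le]
    norm_num
    exact Real.rpow_neg_one _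
  let I : Fin n → ℕ → ℝ → ℂ := fun i j t => (ρ i : ℂ) * J i j t
  have hgpos : ∀ᶠ t : ℝ in atTop, ∀ j, 0 < ((g j).map (Int.castRingHom ℝ)).eval t := by
    rw [eventually_all]
    intro j
    have hl : (0 : ℝ) < ((g j).map (Int.castRingHom ℝ)).leadingCoeff := by
      rw [Polynomial.leadingCoeff_map_of_injective (RingHom.injective_int _)]
      have := hglc j
      simpa using this
    refine (Polynomial.tendsto_atTop_of_leadingCoeff_nonneg _ (Polynomial.natDegree_pos_iff_degree_pos.1 ?_) hl.le).eventually_gt_atTop 0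
    rw [Polynomial.natDegree_map_eq_of_injective (RingHom.injective_int _)]
    exact hgdeg j
  have hI : ∀ i j, j + 2 ≤ Nn g (a i) → IsPrim g (a i) j (I i j) := by
    intro i j hj
    rw [hNn i] at hj
    obtain ⟨H, hH, hev⟩ := hJ i j hj
    refine ⟨fun u => (ρ i : ℂ) * H u, analyticAt_const.mul hH, ?_⟩
    filter_upwards [hev, hgpos] with t ht htg
    have hprod : ∏ j ∈ S i, ((g j).map (Int.castRingHom ℝ)).eval t = (c i : ℝ) * ((f i).map (algebraMap ℚ ℝ)).eval t := by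
      have h1 := congrArg (fun P : ℚ[X] => (P.map (algebraMap ℚ ℝ)).eval t) (hcf i)
      simp only [Polynomial.map_mul, Polynomial.map_prod, Polynomial.map_C, Polynomial.map_map, eval_mul, eval_C, eval_prod] at h1
      have h2 : (algebraMap ℚ ℝ).comp (Int.castRingHom ℚ) = Int.castRingHom ℝ := Subsingleton.elim _ _
      rw [h2] at h1
      rw [← h1]
      rfl
    have hfpos : 0 < ((f i).map (algebraMap ℚ ℝ)).eval t := by
      have h1 : 0 < ∏ j ∈ S i, ((g j).map (Int.castRingHom ℝ)).eval t := Finset.prod_pos fun j _ => htg j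
      rw [hprod] at h1
      exact (pos_iff_pos_of_mul_pos h1).1 (hcR i)
    have hform : integrand g (a i) j t = ρ i * (t ^ j * ((f i).map (algebraMap ℚ ℝ)).eval t ^ (-(1 / 2) : ℝ)) := by
      unfold integrand
      have h1 : ∏ j, ((g j).map (Int.castRingHom ℝ)).eval t ^ (-(a i j : ℝ)) =
          ∏ j ∈ S i, ((g j).map (Int.castRingHom ℝ)).eval t ^ (-(1 / 2) : ℝ) := by
        rw [← Finset.prod_subset (Finset.subset_univ (S i))]
        · refine Finset.prod_congr rfl fun j hj => ?_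
          rw [haS, if_pos hj]
          norm_num
        · intro j _ hj
          rw [haS, if_neg hj]
          norm_num
      rw [h1, Real.finsetProd_rpow _ _ fun j _ => (htg j).le, hprod, Real.mul_rpow (hcR i).le hfpos.le]
      ring
    constructor
    · have h1 := ht.1.const_mul (ρ i : ℂ)
      refine h1.congr_deriv ?_
      rw [hform]
      push_cast
      ring
    · show (ρ i : ℂ) * J i j t = _
      rw [ht.2]
      have h1 : (-(ex g (a i) j : ℝ)) = -(((f i).natDegree : ℝ) / 2 - ((j : ℝ) + 1)) := by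
        unfold ex
        rw [hsum i]
        push_cast
        ring
      rw [h1]
      ring
  obtain ⟨r₀, T, A, y, pl, N, m₀, hGF, hind, hN, hval⟩ :=
    cover_fam0 hKEY hSIM hPW hPRI hGFD hVAL g hgsq hgdeg hglc a ha hinj hA b hb hb0 I hI
  refine ⟨VI g a s, inferInstance, fun i j hj => Sum.inl ⟨i, ⟨j, by rw [hNn i]; omega⟩⟩, Sum.inr,
    fun m => Sum.elim (fun y : (Σ κ : Fin n, Fin (Nn g (a κ) - 1)) => J y.1 y.2 m) (fun i => ((Real.log (1 + b i / m) : ℝ) : ℂ)),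
    ?_, Sum.inr_injective, fun i j hj i' => Sum.inl_ne_inr, fun m i j hj => rfl, fun m i => rfl, ?_⟩
  · intro i j hj i' j' hj' h
    have h1 := Sum.inl_injective h
    rw [Sigma.mk.injEq] at h1
    obtain ⟨rfl, h2⟩ := h1
    exact ⟨rfl, by simpa using eq_of_heq h2⟩
  refine sets_gen hGF pl hind (n := 2 * N) (by omega)
    (fun m => Sum.elim (fun y : (Σ κ : Fin n, Fin (Nn g (a κ) - 1)) => J y.1 y.2 m) (fun i => ((Real.log (1 + b i / m) : ℝ) : ℂ))) m₀ ?_
  intro m hm v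
  obtain ⟨ρ', hρ'0, ⟨z, hz⟩, hv'⟩ := hval m hm v
  rcases v with x | i
  · refine ⟨ρ' * (ρ x.1 : ℂ), mul_ne_zero hρ'0 (by exact_mod_cast (hρ0 x.1).ne'), ⟨z ^ 2 * (1 / c x.1) ^ N, ?_⟩, ?_⟩
    · rw [mul_pow, mul_comm 2 N, pow_mul, hz, mul_comm N 2, pow_mul, ← Complex.ofReal_pow, hρ2 x.1]
      push_cast
      rfl
    · rw [hv']
      show ρ' * ((ρ x.1 : ℂ) * J x.1 x.2 m) = ρ' * (ρ x.1 : ℂ) * J x.1 x.2 m
      ring
  · refine ⟨ρ', hρ'0, ⟨z ^ 2, ?_⟩, hv'⟩
    rw [mul_comm, pow_mul, hz]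
    push_cast
    rfl

end Pool.Agent.P8H40.TR
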